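import Pool.Agent.P.MP_c2263a_gt.Fix.Upper
import Pool.Agent.P.MP_c2263a_gt.Fix.Lower

/-! The asymptotic number of equi-isoclinic 3-planes with cosine `1 / (2 k - 1)`. -/

set_option autoImplicit false

namespace Pool.Agent.Results.MP_c2263a_gt.FixedAngleLimit

open Pool.Agent.P.MP_c2263a_gt.Fix Filter Topology

theorem result (k : ℕ) (hk : 2 ≤ k) :
    Filter.Tendsto (fun m : ℕ =>
      ((sSup {v : ℕ | ∃ U : Fin v → Submodule ℝ (EuclideanSpace ℝ (Fin m)),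
        (∀ i, Module.finrank ℝ (U i) = 3) ∧ ∀ i j, i ≠ j → ∀ u ∈ U i,
          ‖(U j).starProjection u‖ ^ 2 = (1 / (2 * (k : ℝ) - 1)) ^ 2 * ‖u‖ ^ 2} : ℕ) : ℝ) / m)
      Filter.atTop (nhds ((k : ℝ) / (k - 1))) := by
  have k2 : (2 : ℝ) ≤ k := by exact_mod_cast hk
  have h0 : 0 < 1 / (2 * (k : ℝ) - 1) := by rw [one_div_pos]; linarith
  have h1 : 1 / (2 * (k : ℝ) - 1) < 1 := by rw [div_lt_one (by linarith)]; linarith
  have up : ∀ ε : ℝ, 0 < ε → ∃ m0 : ℕ, ∀ m, m0 ≤ m → ∀ v ∈ {v : ℕ |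
      ∃ U : Fin v → Submodule ℝ (EuclideanSpace ℝ (Fin m)),
        (∀ i, Module.finrank ℝ (U i) = 3) ∧ ∀ i j, i ≠ j → ∀ u ∈ U i,
          ‖(U j).starProjection u‖ ^ 2 = (1 / (2 * (k : ℝ) - 1)) ^ 2 * ‖u‖ ^ 2},
      (v : ℝ) ≤ (k / (k - 1) + ε) * m := fun ε hε => by
    have e1 : (k : ℝ) - 1 ≠ 0 := by linarith
    have e2 : 2 * (k : ℝ) - 1 ≠ 0 := by linarith
    obtain ⟨m0, hm⟩ := upper_k (n := 3) (by norm_num) h0 h1 hk (Or.inl (by
      rw [show (1 - 1 / (2 * (k : ℝ) - 1)) / (2 * (1 / (2 * (k : ℝ) - 1))) = k - 1 by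
        field_simp; ring]
      linarith)) hε
    refine ⟨m0, fun m hm0 v ⟨U, hU, h⟩ => ?_⟩
    obtain ⟨X, hX⟩ := frames U hU h
    rw [show (k : ℝ) / (k - 1) = 1 + 1 / (k - 1) by field_simp; ring]
    exact hm m hm0 v X hX
  obtain ⟨m1, hm1⟩ := up 1 one_pos
  have bdd := fun m hm => (⟨_, fun v hv => Nat.le_floor (hm1 m hm v hv)⟩ : BddAbove _)
  refine tendsto_order.2 ⟨fun a ha => ?_, fun a ha => ?_⟩
  · obtain ⟨η, h2, h3⟩ := ((((by fun_prop : Continuous fun η : ℝ => a * (1 + η) ^ 4).tendsto' 0 a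
      (by simp)).eventually (gt_mem_nhds ha)).filter_mono
        (nhdsWithin_le_nhds (s := Set.Ioi 0))).and self_mem_nhdsWithin |>.exists
    obtain ⟨d, rfl⟩ : ∃ d, k = d + 1 := ⟨k - 1, by omega⟩
    obtain ⟨m0, hm0⟩ := lower (d := d) (by omega) h3
    filter_upwards [eventually_ge_atTop m0, eventually_ge_atTop m1, eventually_gt_atTop 0]
      with m a0 a1 a2
    obtain ⟨v, U, hU, hv⟩ := hm0 m a0
    have b0 : (0 : ℝ) < m := by exact_mod_cast a2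
    have b1 : (0 : ℝ) < (1 + η) ^ 4 := pow_pos (by linarith) 4
    have b2 := (Nat.cast_le (α := ℝ)).2 (le_csSup (bdd m a1) ⟨U, hU⟩)
    rw [lt_div_iff₀ b0]
    refine lt_of_lt_of_le (lt_of_mul_lt_mul_left ?_ b1.le) b2
    rw [Nat.cast_succ, add_sub_cancel_right] at h2
    linarith [mul_lt_mul_of_pos_right h2 b0]
  · obtain ⟨m0, hm0⟩ := up ((a - k / (k - 1)) / 2) (by linarith)
    filter_upwards [eventually_ge_atTop m0, eventually_ge_atTop m1, eventually_gt_atTop 0]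
      with m a0 a1 a2
    have b0 : (0 : ℝ) < m := by exact_mod_cast a2
    rw [div_lt_iff₀ b0]
    exact (hm0 m a0 _ (Nat.sSup_mem ⟨0, Fin.elim0, fun i => i.elim0, fun i => i.elim0⟩
      (bdd m a1))).trans_lt (mul_lt_mul_of_pos_right (by linarith) b0)

end Pool.Agent.Results.MP_c2263a_gt.FixedAngleLimit
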